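import Pool.Agent.R207.Prof5

set_option autoImplicit false

/-! # The third-order shock-formation problem has exactly one smooth odd profile -/

namespace Pool.Agent.Results.MP_eb888f_an.UniqueProfile

open Filter Topology Pool.Agent.R207.Prof
open scoped ContDiff

/-- A profile for (A): a smooth odd function `g : ℝ → ℝ` with `(g g')'' = (1/3) z g'` on `ℝ`,
`g → 1` at `-∞` and `g → -1` at `+∞`. -/
structure IsProfileA (g : ℝ → ℝ) : Prop where
  smooth : ContDiff ℝ ∞ g
  odd : ∀ z, g (-z) = -g z
  eqn : ∀ z, iteratedDeriv 2 (fun y => g y * deriv g y) z = 1 / 3 * z * deriv g z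
  lim_bot : Tendsto g atBot (𝓝 1)
  lim_top : Tendsto g atTop (𝓝 (-1))

theorem core_of_profile {g : ℝ → ℝ} (hg : IsProfileA g) :
    ∃ G1 c k : ℝ → ℝ, Core (fun z => -g z) G1 c k := by
  have hd : ∀ z, HasDerivAt g (deriv g z) z := fun z =>
    (hg.smooth.differentiable (by simp) z).hasDerivAt
  have hsm' : ContDiff ℝ ∞ (deriv g) := (contDiff_infty_iff_deriv.mp hg.smooth).2
  set k : ℝ → ℝ := fun y => g y * deriv g y with hk
  have hksm : ContDiff ℝ ∞ k := hg.smooth.mul hsm'
  have hkd : ∀ z, HasDerivAt k (deriv k z) z := fun z =>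
    (hksm.differentiable (by simp) z).hasDerivAt
  have hksm' : ContDiff ℝ ∞ (deriv k) := (contDiff_infty_iff_deriv.mp hksm).2
  have hkdd : ∀ z, HasDerivAt (deriv k) (1 / 3 * z * deriv g z) z := by
    intro z
    have h1 := (hksm'.differentiable (by simp) z).hasDerivAt
    have h2 := hg.eqn z
    rw [iteratedDeriv_succ, iteratedDeriv_one] at h2
    rw [h2] at h1
    exact h1
  have hg0 : g 0 = 0 := by
    have := hg.odd 0
    rw [neg_zero] at this
    linarith
  refine ⟨fun z => -deriv g z, fun z => deriv k z - z / 3 * g z, k, ?_, ?_, ?_, ?_, ?_, ?_⟩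
  · exact fun z => (hd z).neg
  · intro z
    have h : HasDerivAt (fun z => deriv k z - z / 3 * g z) _ z :=
      (hkdd z).sub (((hasDerivAt_id z).div_const 3).mul (hd z))
    refine h.congr_deriv ?_
    simp only [id]
    ring
  · intro z
    refine (hkd z).congr_deriv ?_
    ring
  · intro z
    simp only [hk]
    ring
  · simp [hg0]
  · have h1 : HasDerivAt k _ 0 :=
      (hd 0).mul (hsm'.differentiable (by simp) 0).hasDerivAt
    simp only [h1.deriv, hg0]
    ring

theorem profile_of_core {G G1 c k : ℝ → ℝ} (P : Core G G1 c k) (hs : ContDiff ℝ ∞ G)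
    (hodd : ∀ z, G (-z) = -G z) (hlim : Tendsto G atTop (𝓝 1)) :
    IsProfileA (fun z => -G z) where
  smooth := hs.neg
  odd z := by simp [hodd]
  eqn z := by
    have h1 : deriv (fun z => -G z) = fun z => -G1 z := by
      ext z; exact (P.hG z).neg.deriv
    have h2 : (fun y => -G y * deriv (fun z => -G z) y) = k := by
      ext y; rw [h1, P.kk y]; ring
    have h3 : deriv k = fun z => c z - z / 3 * G z := by
      ext y; exact (P.hk y).deriv
    rw [h2, h1, iteratedDeriv_succ, iteratedDeriv_one, h3]
    have h : HasDerivAt (fun z => c z - z / 3 * G z) _ z :=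
      (P.hc z).sub (((hasDerivAt_id z).div_const 3).mul (P.hG z))
    rw [h.deriv]
    simp only [id]
    ring
  lim_bot := by
    have h1 : Tendsto (fun z => G (-z)) atBot (𝓝 1) := hlim.comp tendsto_neg_atBot_atTop
    refine h1.congr fun z => ?_
    rw [hodd]
  lim_top := hlim.neg

/-- Equation (A) with the boundary conditions has exactly one profile. -/
theorem result : ∃! g : ℝ → ℝ, IsProfileA g := by
  obtain ⟨G, G1, c, k, P, hs, hodd, hlim⟩ := exists_core
  refine ⟨fun z => -G z, profile_of_core P hs hodd hlim, ?_⟩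
  intro g hg
  obtain ⟨H1, d, l, R⟩ := core_of_profile hg
  have hH : Tendsto (fun z => -g z) atTop (𝓝 1) := by
    have := hg.lim_top.neg
    simpa using this
  have hu := R.unique_of_lim P hH hlim
  ext z
  rcases le_total 0 z with h | h
  · have := hu z h
    linarith
  · have h1 := hu (-z) (by linarith)
    simp only [hg.odd, hodd] at h1
    linarith

end Pool.Agent.Results.MP_eb888f_an.UniqueProfile
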